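import Mathlib

/-!
Weakly increasing scattered subsequences with letters in an interval `[p, q]`,
for words over `ℕ`.
-/

namespace Pool.Agent.Q274.GM

/-- `s` is a weakly increasing scattered subsequence of `w` with letters in `[p, q]`. -/
def Inc (p q : ℕ) (s w : List ℕ) : Prop :=
  s.Sublist w ∧ s.Pairwise (· ≤ ·) ∧ ∀ x ∈ s, p ≤ x ∧ x ≤ q

/-- All weakly increasing subsequences of `w` with letters in `[p, q]` have length `≤ m`. -/
def U (p q m : ℕ) (w : List ℕ) : Prop := ∀ s, Inc p q s w → s.length ≤ m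

/-- The grammic equivalence, on words over `ℕ`. -/
def G (s t : List ℕ) : Prop := ∀ p q m, U p q m s ↔ U p q m t

theorem Inc.nil (p q : ℕ) (w : List ℕ) : Inc p q [] w :=
  ⟨List.nil_sublist _, List.Pairwise.nil, by simp⟩

theorem Inc.mono {p q p' q' : ℕ} {s w : List ℕ} (h : Inc p q s w) (hp : p' ≤ p) (hq : q ≤ q') :
    Inc p' q' s w :=
  ⟨h.1, h.2.1, fun x hx => ⟨hp.trans (h.2.2 x hx).1, (h.2.2 x hx).2.trans hq⟩⟩

theorem Inc.append {p x q : ℕ} {s t v w : List ℕ} (h1 : Inc p x s v) (h2 : Inc x q t w)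
    (hp : p ≤ x) (hq : x ≤ q) : Inc p q (s ++ t) (v ++ w) := by
  refine ⟨h1.1.append h2.1, List.pairwise_append.2 ⟨h1.2.1, h2.2.1, ?_⟩, ?_⟩
  · intro a ha b hb
    exact (h1.2.2 a ha).2.trans (h2.2.2 b hb).1
  · intro a ha
    rcases List.mem_append.1 ha with h | h
    · exact ⟨(h1.2.2 a h).1, (h1.2.2 a h).2.trans hq⟩
    · exact ⟨hp.trans (h2.2.2 a h).1, (h2.2.2 a h).2⟩

theorem Inc.rep (x : ℕ) (w : List ℕ) : Inc x x (List.replicate (w.count x) x) w :=
  ⟨List.replicate_sublist_iff.2 le_rfl, List.pairwise_replicate.2 (Or.inr le_rfl),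
    fun y hy => by rw [List.eq_of_mem_replicate hy]; exact ⟨le_rfl, le_rfl⟩⟩

theorem U.mono {p q m p' q' m' : ℕ} {w : List ℕ} (h : U p q m w) (hp : p ≤ p') (hq : q' ≤ q)
    (hm : m ≤ m') : U p' q' m' w :=
  fun s hs => (h s (hs.mono hp hq)).trans hm

/-- Counting bound for two factors. -/
theorem U.two {p q m : ℕ} {v w : List ℕ} (h : U p q m (v ++ w)) (x y : ℕ) (h1 : p ≤ x)
    (h2 : x ≤ y) (h3 : y ≤ q) : v.count x + w.count y ≤ m := by
  have := h _ ((Inc.rep x v).append (((Inc.rep y w).mono h2 le_rfl)) (le_refl x) h2 |>.mono h1 h3)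
  simpa using this

/-- Counting bound for three factors. -/
theorem U.three {p q m : ℕ} {u v w : List ℕ} (h : U p q m (u ++ (v ++ w))) (x y z : ℕ) (h1 : p ≤ x)
    (h2 : x ≤ y) (h3 : y ≤ z) (h4 : z ≤ q) : u.count x + v.count y + w.count z ≤ m := by
  have h5 : Inc y z (List.replicate (v.count y) y ++ List.replicate (w.count z) z) (v ++ w) :=
    (Inc.rep y v).append (((Inc.rep z w).mono h3 le_rfl)) (le_refl y) h3
  have h6 := (((Inc.rep x u).append (h5.mono h2 le_rfl) (le_refl x) (h2.trans h3)).mono h1 h4)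
  have := h _ h6
  simp only [List.length_append, List.length_replicate] at this
  omega

theorem count_eq_length {x : ℕ} {s : List ℕ} (h : ∀ y ∈ s, y = x) : s.count x = s.length := by
  rw [List.count_eq_length]
  intro b hb
  exact (h b hb).symm

theorem U.diag {x m : ℕ} {w : List ℕ} : U x x m w ↔ w.count x ≤ m := by
  constructor
  · intro h
    simpa using h _ (Inc.rep x w)
  · intro h s hs
    have h1 : s.count x = s.length :=
      count_eq_length fun y hy => le_antisymm (hs.2.2 y hy).2 (hs.2.2 y hy).1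
    rw [← h1]
    exact (hs.1.count_le x).trans h

/-- A weakly increasing word splits at every threshold. -/
theorem split_at (t : ℕ) : ∀ s : List ℕ, s.Pairwise (· ≤ ·) →
    ∃ s1 s2, s = s1 ++ s2 ∧ (∀ x ∈ s1, x ≤ t) ∧ ∀ x ∈ s2, t < x := by
  intro s
  induction s with
  | nil => intro _; exact ⟨[], [], rfl, by simp, by simp⟩
  | cons a s ih =>
    intro h
    by_cases ha : a ≤ t
    · obtain ⟨s1, s2, h1, h2, h3⟩ := ih (List.pairwise_cons.1 h).2
      refine ⟨a :: s1, s2, by simp [h1], ?_, h3⟩
      intro x hx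
      rcases List.mem_cons.1 hx with h4 | h4
      · rw [h4]; exact ha
      · exact h2 x h4
    · refine ⟨[], a :: s, rfl, by simp, ?_⟩
      intro x hx
      rcases List.mem_cons.1 hx with h4 | h4
      · rw [h4]; omega
      · have := (List.pairwise_cons.1 h).1 x h4
        omega

theorem not_U {p q m : ℕ} {w : List ℕ} (h : ¬ U p q m w) : ∃ s, Inc p q s w ∧ m < s.length := by
  unfold U at h
  push Not at h
  exact h

/-- A long weakly increasing subsequence in two letters. -/
theorem not_U_two {p m : ℕ} {w : List ℕ} (h : ¬ U p (p + 1) m w) :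
    ∃ v1 v2, w = v1 ++ v2 ∧ m < v1.count p + v2.count (p + 1) := by
  obtain ⟨s, hs, hm⟩ := not_U h
  obtain ⟨s1, s2, h1, h2, h3⟩ := split_at p s hs.2.1
  have hsub := hs.1
  rw [h1] at hsub
  obtain ⟨v1, v2, hw, h4, h5⟩ := List.append_sublist_iff.1 hsub
  refine ⟨v1, v2, hw, ?_⟩
  have c1 : s1.count p = s1.length := count_eq_length fun y hy =>
    le_antisymm (h2 y hy) (hs.2.2 y (by rw [h1]; exact List.mem_append_left _ hy)).1
  have c2 : s2.count (p + 1) = s2.length := count_eq_length fun y hy =>
    le_antisymm (hs.2.2 y (by rw [h1]; exact List.mem_append_right _ hy)).2 (h3 y hy)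
  have := h4.count_le p
  have := h5.count_le (p + 1)
  rw [h1, List.length_append] at hm
  omega

/-- A long weakly increasing subsequence in three letters. -/
theorem not_U_three {p m : ℕ} {w : List ℕ} (h : ¬ U p (p + 2) m w) :
    ∃ v1 v2 v3, w = v1 ++ (v2 ++ v3) ∧
      m < v1.count p + v2.count (p + 1) + v3.count (p + 2) := by
  obtain ⟨s, hs, hm⟩ := not_U h
  obtain ⟨s1, s2, h1, h2, h3⟩ := split_at p s hs.2.1
  have hp2 : s2.Pairwise (· ≤ ·) := by
    have := hs.2.1
    rw [h1] at this
    exact (List.pairwise_append.1 this).2.1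
  obtain ⟨s3, s4, h6, h7, h8⟩ := split_at (p + 1) s2 hp2
  have hsub := hs.1
  rw [h1] at hsub
  obtain ⟨v1, v2, hw, h4, h5⟩ := List.append_sublist_iff.1 hsub
  rw [h6] at h5
  obtain ⟨v3, v4, hw2, h9, h10⟩ := List.append_sublist_iff.1 h5
  refine ⟨v1, v3, v4, by rw [hw, hw2], ?_⟩
  have c1 : s1.count p = s1.length := count_eq_length fun y hy =>
    le_antisymm (h2 y hy) (hs.2.2 y (by rw [h1]; exact List.mem_append_left _ hy)).1
  have c3 : s3.count (p + 1) = s3.length := count_eq_length fun y hy =>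
    le_antisymm (h7 y hy) (h3 y (by rw [h6]; exact List.mem_append_left _ hy))
  have c4 : s4.count (p + 2) = s4.length := count_eq_length fun y hy =>
    le_antisymm (hs.2.2 y (by rw [h1, h6]; simp [hy])).2 (h8 y hy)
  have := h4.count_le p
  have := h9.count_le (p + 1)
  have := h10.count_le (p + 2)
  rw [h1, h6, List.length_append, List.length_append] at hm
  omega

/-! ### Context compatibility -/

theorem G.symm {s t : List ℕ} (h : G s t) : G t s := fun p q m => (h p q m).symm

theorem G.refl (s : List ℕ) : G s s := fun _ _ _ => Iff.rfl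

theorem G.trans {s t u : List ℕ} (h : G s t) (h' : G t u) : G s u :=
  fun p q m => (h p q m).trans (h' p q m)

theorem ctx_aux {s t : List ℕ} (h : G s t) (a b : List ℕ) (p q m : ℕ)
    (hU : U p q m (a ++ (t ++ b))) : U p q m (a ++ (s ++ b)) := by
  intro c hc
  obtain ⟨c1, c23, h1, h2, h3⟩ := List.sublist_append_iff.1 hc.1
  obtain ⟨c2, c3, h4, h5, h6⟩ := List.sublist_append_iff.1 h3
  subst h4
  subst h1
  have hpw := hc.2.1
  rcases eq_or_ne c2 [] with hc2 | hc2
  · subst hc2
    refine hU _ ⟨h2.append ?_, hc.2.1, hc.2.2⟩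
    simpa using h6.trans (List.sublist_append_right t b)
  · -- nonempty middle part
    set x := c2.head hc2 with hx
    set y := c2.getLast hc2 with hy
    have hpw2 : c2.Pairwise (· ≤ ·) :=
      (List.pairwise_append.1 (List.pairwise_append.1 hpw).2.1).1
    have hxm : x ∈ c2 := List.head_mem hc2
    have hym : y ∈ c2 := List.getLast_mem hc2
    have hxle : ∀ z ∈ c2, x ≤ z := by
      intro z hz
      obtain ⟨d, ds, hd⟩ := List.exists_cons_of_ne_nil hc2
      have hxd : x = d := by simp [hx, hd]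
      rw [hd] at hz hpw2
      rcases List.mem_cons.1 hz with h | h
      · rw [h, hxd]
      · rw [hxd]; exact (List.pairwise_cons.1 hpw2).1 z h
    have hyge : ∀ z ∈ c2, z ≤ y := by
      intro z hz
      have e := List.dropLast_append_getLast hc2
      rw [← e] at hz hpw2
      rcases List.mem_append.1 hz with h | h
      · exact (List.pairwise_append.1 hpw2).2.2 z h y (by simp [hy])
      · rw [List.mem_singleton] at h
        rw [h]
    have hinc : Inc x y c2 s := ⟨h5, hpw2, fun z hz => ⟨hxle z hz, hyge z hz⟩⟩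
    have hlen : 0 < c2.length := List.length_pos_iff.2 hc2
    have hnU : ¬ U x y (c2.length - 1) t := by
      rw [← h x y]
      intro hh
      have := hh c2 hinc
      omega
    obtain ⟨c2', hc2', hl⟩ := not_U hnU
    have key : Inc p q (c1 ++ (c2' ++ c3)) (a ++ (t ++ b)) := by
      have hp1 := List.pairwise_append.1 hpw
      have hp2 := List.pairwise_append.1 hp1.2.1
      refine ⟨h2.append (hc2'.1.append h6), ?_, ?_⟩
      · rw [List.pairwise_append]
        refine ⟨hp1.1, ?_, ?_⟩
        · rw [List.pairwise_append]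
          refine ⟨hc2'.2.1, hp2.2.1, ?_⟩
          intro z hz z' hz'
          exact (hc2'.2.2 z hz).2.trans (hp2.2.2 y hym z' hz')
        · intro z hz z' hz'
          rcases List.mem_append.1 hz' with h | h
          · exact (hp1.2.2 z hz x (List.mem_append_left _ hxm)).trans (hc2'.2.2 z' h).1
          · exact hp1.2.2 z hz z' (List.mem_append_right _ h)
      · intro z hz
        rcases List.mem_append.1 hz with h | h
        · exact hc.2.2 z (List.mem_append_left _ h)
        · rcases List.mem_append.1 h with h | h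
          · exact ⟨(hc.2.2 x (by simp [hxm])).1.trans (hc2'.2.2 z h).1,
              (hc2'.2.2 z h).2.trans (hc.2.2 y (by simp [hym])).2⟩
          · exact hc.2.2 z (by simp [h])
    have := hU _ key
    simp only [List.length_append] at this ⊢
    omega

theorem G.ctx {s t : List ℕ} (h : G s t) (a b : List ℕ) : G (a ++ (s ++ b)) (a ++ (t ++ b)) :=
  fun p q m => ⟨ctx_aux h.symm a b p q m, ctx_aux h a b p q m⟩

theorem G.count {s t : List ℕ} (h : G s t) (x : ℕ) : s.count x = t.count x := by
  apply le_antisymm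
  · rw [← U.diag, h x x, U.diag]
  · rw [← U.diag, ← h x x, U.diag]

theorem G.mem {s t : List ℕ} (h : G s t) {x : ℕ} (hx : x ∈ s) : x ∈ t := by
  rw [← List.count_pos_iff] at hx ⊢
  rwa [← h.count]

end Pool.Agent.Q274.GM
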