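import Pool.Agent.Q274.GM.Basic

/-!
Structure of the words of the class of `310 (40)^(k-3) 410 430 4321` (letters `0..4`).
-/

namespace Pool.Agent.Q274.GM

/-- Conditions satisfied by the words of the class. -/
structure Cl (k : ℕ) (w : List ℕ) : Prop where
  le4 : ∀ x ∈ w, x ≤ 4
  c0 : w.count 0 = k
  c1 : w.count 1 = 3
  c2 : w.count 2 = 1
  c3 : w.count 3 = 3
  c4 : w.count 4 = k
  u04 : U 0 4 (k + 1) w
  u13 : U 1 3 4 w
  u12 : U 1 2 3 w
  u23 : U 2 3 3 w
  e01 : ¬ U 0 1 k w
  e34 : ¬ U 3 4 k w
  e13 : ¬ U 1 3 3 w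

theorem Cl.congr {k : ℕ} {v w : List ℕ} (h : G v w) (hv : Cl k v) : Cl k w where
  le4 x hx := hv.le4 x (h.symm.mem hx)
  c0 := by rw [← h.count]; exact hv.c0
  c1 := by rw [← h.count]; exact hv.c1
  c2 := by rw [← h.count]; exact hv.c2
  c3 := by rw [← h.count]; exact hv.c3
  c4 := by rw [← h.count]; exact hv.c4
  u04 := (h _ _ _).1 hv.u04
  u13 := (h _ _ _).1 hv.u13
  u12 := (h _ _ _).1 hv.u12
  u23 := (h _ _ _).1 hv.u23
  e01 := fun e => hv.e01 ((h _ _ _).2 e)
  e34 := fun e => hv.e34 ((h _ _ _).2 e)
  e13 := fun e => hv.e13 ((h _ _ _).2 e)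

/-! ### Duality -/

/-- Reversal and complementation of the letters. -/
def D (w : List ℕ) : List ℕ := (w.map (4 - ·)).reverse

theorem D_append (v w : List ℕ) : D (v ++ w) = D w ++ D v := by
  simp [D]

theorem D_D {w : List ℕ} (h : ∀ x ∈ w, x ≤ 4) : D (D w) = w := by
  unfold D
  rw [List.map_reverse, List.reverse_reverse, List.map_map]
  conv_rhs => rw [← List.map_id w]
  apply List.map_congr_left
  intro x hx
  have := h x hx
  simp only [Function.comp, id]
  omega

theorem D_length (w : List ℕ) : (D w).length = w.length := by simp [D]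

theorem mem_D {w : List ℕ} {x : ℕ} (hx : x ∈ w) : 4 - x ∈ D w := by
  simp only [D, List.mem_reverse, List.mem_map]
  exact ⟨x, hx, rfl⟩

theorem D_le (w : List ℕ) : ∀ x ∈ D w, x ≤ 4 := by
  intro x hx
  simp only [D, List.mem_reverse, List.mem_map] at hx
  obtain ⟨y, _, rfl⟩ := hx
  omega

theorem count_D {w : List ℕ} (h : ∀ x ∈ w, x ≤ 4) {x : ℕ} (hx : x ≤ 4) :
    (D w).count x = w.count (4 - x) := by
  unfold D
  rw [List.count_reverse]
  induction w with
  | nil => rfl
  | cons a w ih =>
    have ha : a ≤ 4 := h a (by simp)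
    have := ih fun y hy => h y (by simp [hy])
    simp only [List.map_cons, List.count_cons, this, beq_iff_eq]
    congr 1
    by_cases e : a = 4 - x
    · rw [if_pos e, if_pos (by omega)]
    · rw [if_neg e, if_neg (by omega)]

theorem Inc.dual {p q : ℕ} {s w : List ℕ} (h : Inc p q s w) : Inc (4 - q) (4 - p) (D s) (D w) := by
  refine ⟨(h.1.map _).reverse, ?_, ?_⟩
  · unfold D
    rw [List.pairwise_reverse, List.pairwise_map]
    exact h.2.1.imp fun {a b} hab => by omega
  · intro x hx
    simp only [D, List.mem_reverse, List.mem_map] at hx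
    obtain ⟨y, hy, rfl⟩ := hx
    have := h.2.2 y hy
    omega

theorem U.dual {p q m : ℕ} {w : List ℕ} (hw : ∀ x ∈ w, x ≤ 4) (hq : q ≤ 4) (hp : p ≤ 4)
    (h : U p q m w) : U (4 - q) (4 - p) m (D w) := by
  intro s hs
  have h1 := hs.dual
  rw [D_D hw] at h1
  have e1 : 4 - (4 - p) = p := by omega
  have e2 : 4 - (4 - q) = q := by omega
  rw [e1, e2] at h1
  have := h _ h1
  rwa [D_length] at this

theorem Cl.dual {k : ℕ} {w : List ℕ} (h : Cl k w) : Cl k (D w) where
  le4 := D_le w
  c0 := by rw [count_D h.le4 (by norm_num)]; exact h.c4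
  c1 := by rw [count_D h.le4 (by norm_num)]; exact h.c3
  c2 := by rw [count_D h.le4 (by norm_num)]; exact h.c2
  c3 := by rw [count_D h.le4 (by norm_num)]; exact h.c1
  c4 := by rw [count_D h.le4 (by norm_num)]; exact h.c0
  u04 := h.u04.dual h.le4 (by norm_num) (by norm_num)
  u13 := h.u13.dual h.le4 (by norm_num) (by norm_num)
  u12 := h.u23.dual h.le4 (by norm_num) (by norm_num)
  u23 := h.u12.dual h.le4 (by norm_num) (by norm_num)
  e01 := fun e => h.e34 (by
    have := e.dual (D_le w) (by norm_num) (by norm_num)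
    rwa [D_D h.le4] at this)
  e34 := fun e => h.e01 (by
    have := e.dual (D_le w) (by norm_num) (by norm_num)
    rwa [D_D h.le4] at this)
  e13 := fun e => h.e13 (by
    have := e.dual (D_le w) (by norm_num) (by norm_num)
    rwa [D_D h.le4] at this)

/-! ### Locating a factorization -/

theorem loc {w1 w2 X Y : List ℕ} (h : w1 ++ w2 = X ++ 2 :: Y) (hc : (X ++ 2 :: Y).count 2 = 1) :
    (w1.count 2 = 0 ∧ ∃ a, X = w1 ++ a ∧ w2 = a ++ 2 :: Y) ∨
      ∃ c, w1 = X ++ 2 :: c ∧ Y = c ++ w2 := by
  simp only [List.count_append, List.count_cons_self] at hc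
  rcases List.append_eq_append_iff.1 h with ⟨a, h1, h2⟩ | ⟨c, h1, h2⟩
  · refine Or.inl ⟨?_, a, h1, h2⟩
    rw [h1, List.count_append] at hc
    omega
  · cases c with
    | nil =>
      refine Or.inl ⟨?_, [], ?_, ?_⟩
      · rw [h1]; simp only [List.append_nil]; omega
      · simpa using h1.symm
      · simpa using h2.symm
    | cons b c =>
      simp only [List.cons_append, List.cons.injEq] at h2
      refine Or.inr ⟨c, ?_, h2.2⟩
      rw [h1, ← h2.1]

theorem first_unique {x : ℕ} : ∀ {A A' B B' : List ℕ}, x ∉ A → x ∉ A' →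
    A ++ x :: B = A' ++ x :: B' → A = A' ∧ B = B' := by
  intro A
  induction A with
  | nil =>
    intro A' B B' _ h2 h
    cases A' with
    | nil => simpa using h
    | cons a A' =>
      simp only [List.nil_append, List.cons_append, List.cons.injEq] at h
      exact absurd (by simp [h.1]) h2
  | cons a A ih =>
    intro A' B B' h1 h2 h
    cases A' with
    | nil =>
      simp only [List.nil_append, List.cons_append, List.cons.injEq] at h
      exact absurd (by simp [h.1]) h1
    | cons a' A' =>
      simp only [List.cons_append, List.cons.injEq] at h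
      obtain ⟨h3, h4⟩ := ih (by simp at h1; exact h1.2) (by simp at h2; exact h2.2) h.2
      exact ⟨by rw [h.1, h3], h4⟩

/-! ### The prefix ending the letters `3` -/

/-- `w = P ++ S` where the weakly increasing subsequences of `P` in the letters `≤ 3` are
not longer than the number of letters `3` of `P = A ++ 3 :: Q`; `A` consists of letters `4`. -/
theorem Cl.H1 {k : ℕ} {w : List ℕ} (h : Cl k w) : ∃ A Q S, w = (A ++ 3 :: Q) ++ S ∧
    (∀ x ∈ A, x = 4) ∧ k ≤ Q.count 3 + S.count 4 ∧ U 0 3 (Q.count 3 + 1) (A ++ 3 :: Q) := by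
  obtain ⟨P, S, hw, hm⟩ := not_U_two h.e34
  simp only [Nat.reduceAdd] at hm
  have h4 := h.c4
  rw [hw, List.count_append] at h4
  have h3 : 0 < P.count 3 := by omega
  obtain ⟨A, Q, hP, hA⟩ := List.eq_append_cons_of_mem (List.count_pos_iff.1 h3)
  have hA3 : A.count 3 = 0 := List.count_eq_zero.2 hA
  have hP3 : P.count 3 = Q.count 3 + 1 := by
    rw [hP, List.count_append, List.count_cons_self]; omega
  have hU : U 0 3 (Q.count 3 + 1) P := by
    intro s hs
    have h5 : Inc 0 4 (s ++ List.replicate (S.count 4) 4) (P ++ S) :=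
      hs.append ((Inc.rep 4 S).mono (by norm_num) le_rfl) (by norm_num) (by norm_num)
    rw [← hw] at h5
    have := h.u04 _ h5
    simp only [List.length_append, List.length_replicate] at this
    omega
  rw [hP] at hU hw
  refine ⟨A, Q, S, hw, ?_, by omega, hU⟩
  intro x hx
  have hx4 : x ≤ 4 := h.le4 x (by rw [hw]; simp [hx])
  have hx3 : x ≠ 3 := fun e => hA (e ▸ hx)
  by_contra hne
  have := hU.two x 3 (by omega) (by omega) le_rfl
  have hpos : 0 < A.count x := List.count_pos_iff.2 hx
  rw [List.count_cons_self] at this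
  omega

/-- Before the first `3` there are only letters `4`. -/
theorem Cl.G1 {k : ℕ} {w w1 w2 : List ℕ} (h : Cl k w) (hw : w = w1 ++ w2)
    (h3 : w1.count 3 = 0) : ∀ x ∈ w1, x = 4 := by
  obtain ⟨A, Q, S, h1, hA, -, -⟩ := h.H1
  rw [hw] at h1
  simp only [List.append_assoc, List.cons_append] at h1
  rcases List.append_eq_append_iff.1 h1 with ⟨a, h5, -⟩ | ⟨c, h5, h6⟩
  · intro x hx
    exact hA x (by rw [h5]; simp [hx])
  · cases c with
    | nil => rw [h5]; simpa using hA
    | cons b c =>
      simp only [List.cons_append, List.cons.injEq] at h6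
      rw [h5, ← h6.1, List.count_append, List.count_cons_self] at h3
      omega

/-- After the last `1` there are only letters `0`. -/
theorem Cl.G2 {k : ℕ} {w w1 w2 : List ℕ} (h : Cl k w) (hw : w = w1 ++ w2)
    (h1 : w2.count 1 = 0) : ∀ x ∈ w2, x = 0 := by
  have hle : ∀ x ∈ w2, x ≤ 4 := fun x hx => h.le4 x (by rw [hw]; simp [hx])
  have e : D w = D w2 ++ D w1 := by rw [hw, D_append]
  have := h.dual.G1 e (by rw [count_D hle (by norm_num)]; exact h1)
  intro x hx
  have h2 := this _ (mem_D hx)
  have := hle x hx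
  omega

/-- The two types. -/
theorem Cl.types {k : ℕ} {X Y : List ℕ} (h : Cl k (X ++ 2 :: Y)) :
    (X.count 1 = 2 ∧ 2 ≤ X.count 3) ∨ (X.count 1 ≤ 1 ∧ X.count 3 = 1) := by
  have hc1 := h.c1
  have hc2 := h.c2
  have hc3 := h.c3
  have k1 : (X ++ 2 :: Y).count 1 = X.count 1 + Y.count 1 := by simp
  have k2 : (X ++ 2 :: Y).count 2 = X.count 2 + (Y.count 2 + 1) := by simp
  have k3 : (X ++ 2 :: Y).count 3 = X.count 3 + Y.count 3 := by simp
  have a := h.u12.two (v := X) (w := 2 :: Y) 1 2 le_rfl (by norm_num) le_rfl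
  have b := U.two (v := X ++ [2]) (w := Y) (by simpa using h.u23) 2 3 le_rfl (by norm_num) le_rfl
  have c := U.three (u := X) (v := [2]) (w := Y) (by simpa using h.u13) 1 2 3 le_rfl
    (by norm_num) (by norm_num) le_rfl
  simp only [List.count_append, List.count_cons_self, List.count_nil] at a b c
  by_cases d : X.count 1 ≤ 1 ∧ 2 ≤ X.count 3
  · exfalso
    obtain ⟨w1, w2, w3, hw, hm⟩ := not_U_three h.e13
    rcases loc hw.symm h.c2 with ⟨e1, a', e2, e3⟩ | ⟨c', e2, e3⟩
    · have f1 : X.count 1 = w1.count 1 + a'.count 1 := by rw [e2, List.count_append]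
      rcases loc e3 (by
        have := h.c2
        rw [e2, List.append_assoc, List.count_append, e1, zero_add] at this
        exact this) with ⟨g1, b', g2, g3⟩ | ⟨c', g2, g3⟩
      · -- `2 ∉ w2`
        simp only [Nat.reduceAdd] at hm
        rw [g1] at hm
        have f3 : (w1 ++ (w2 ++ w3)).count 3 = 3 := by rw [← hw]; exact hc3
        rw [List.count_append, List.count_append] at f3
        have := h.G1 hw (by omega)
        have hpos : 0 < w1.count 1 := by omega
        have := this 1 (List.count_pos_iff.1 hpos)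
        omega
      · -- `2 ∈ w2`
        have f3 : Y.count 3 = c'.count 3 + w3.count 3 := by rw [g3, List.count_append]
        have f4 : w2.count 2 ≤ 1 := by
          have : (w1 ++ (w2 ++ w3)).count 2 = 1 := by rw [← hw]; exact hc2
          rw [List.count_append, List.count_append] at this
          omega
        simp only [Nat.reduceAdd] at hm
        omega
    · have f3 : Y.count 3 = c'.count 3 + (w2.count 3 + w3.count 3) := by
        rw [e3, List.count_append, List.count_append]
      have f2 : w1.count 2 + (w2.count 2 + w3.count 2) = 1 := by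
        have : (w1 ++ (w2 ++ w3)).count 2 = 1 := by rw [← hw]; exact hc2
        rwa [List.count_append, List.count_append] at this
      have f4 : 1 ≤ w1.count 2 := by rw [e2, List.count_append, List.count_cons_self]; omega
      have f1 : w1.count 1 + (w2.count 1 + w3.count 1) = 3 := by
        have : (w1 ++ (w2 ++ w3)).count 1 = 3 := by rw [← hw]; exact hc1
        rwa [List.count_append, List.count_append] at this
      simp only [Nat.reduceAdd] at hm
      have hz : (w2 ++ w3).count 1 = 0 := by rw [List.count_append]; omega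
      have := h.G2 hw hz
      have hpos : 0 < w3.count 3 := by omega
      have := this 3 (List.mem_append_right _ (List.count_pos_iff.1 hpos))
      omega
  · omega

/-- Words of the second type do not start with `4`. -/
theorem Cl.first {k : ℕ} {X Y w' : List ℕ} (h : Cl k (X ++ 2 :: Y)) (hB : X.count 3 = 1)
    (hw : X ++ 2 :: Y = 4 :: w') : False := by
  have hc1 := h.c1
  have hc2 := h.c2
  have hc3 := h.c3
  have k1 : (X ++ 2 :: Y).count 1 = X.count 1 + Y.count 1 := by simp
  have k2 : (X ++ 2 :: Y).count 2 = X.count 2 + (Y.count 2 + 1) := by simp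
  have k3 : (X ++ 2 :: Y).count 3 = X.count 3 + Y.count 3 := by simp
  obtain ⟨A, Q, S, h1, hA, hk, hU⟩ := h.H1
  have h3A : 3 ∉ A := fun hh => by have := hA 3 hh; omega
  -- `A` starts with `4`
  have hA4 : 1 ≤ A.count 4 := by
    cases A with
    | nil => rw [hw] at h1; simp at h1
    | cons a A =>
      have := hA a (by simp)
      rw [this, List.count_cons_self]
      omega
  have hc4 := h.c4
  have q3 : 1 ≤ Q.count 3 := by
    rw [h1] at hc4
    simp only [List.count_append, List.count_cons] at hc4
    omega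
  -- `X = A ++ 3 :: Q1`
  have h3X : 0 < X.count 3 := by omega
  obtain ⟨A', Q1, hX, hA'⟩ := List.eq_append_cons_of_mem (List.count_pos_iff.1 h3X)
  have h2 := h1
  rw [hX] at h2
  simp only [List.append_assoc, List.cons_append] at h2
  obtain ⟨hAA, h4⟩ := first_unique hA' h3A h2
  subst hAA
  have hA'3 : A'.count 3 = 0 := List.count_eq_zero.2 hA'
  have hQ13 : Q1.count 3 = 0 := by
    rw [hX, List.count_append, List.count_cons_self] at hB
    omega
  -- `Q = Q1 ++ 2 :: Q2`
  have hQQ : ∃ Q2, Q = Q1 ++ 2 :: Q2 := by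
    rcases List.append_eq_append_iff.1 h4 with ⟨a, g1, g2⟩ | ⟨c, g1, g2⟩
    · cases a with
      | nil =>
        rw [g1, List.append_nil] at q3
        omega
      | cons b a =>
        simp only [List.cons_append, List.cons.injEq] at g2
        exact ⟨a, by rw [g1, g2.1]⟩
    · rw [g1, List.count_append] at hQ13
      omega
  obtain ⟨Q2, hQ2⟩ := hQQ
  have hQ3 : Q.count 3 = Q2.count 3 := by
    rw [hQ2, List.count_append, List.count_cons_of_ne (by norm_num)]
    omega
  -- no letter `1` in `Q1`, hence none in `X`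
  have hQ11 : Q1.count 1 = 0 := by
    have := U.three (u := A' ++ 3 :: Q1) (v := [2]) (w := Q2) (by
      rw [hQ2] at hU; simpa using hU) 1 2 3 (by norm_num) (by norm_num) (by norm_num) le_rfl
    simp only [List.count_append, List.count_cons_self, List.count_nil,
      List.count_cons_of_ne (show (3 : ℕ) ≠ 1 by norm_num)] at this
    have e : (([2] : List ℕ)).count 2 = 1 := by decide
    omega
  have hA1 : A'.count 1 = 0 := List.count_eq_zero.2 fun hh => by have := hA 1 hh; omega
  have hX1 : X.count 1 = 0 := by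
    rw [hX, List.count_append, List.count_cons_of_ne (by norm_num)]
    omega
  obtain ⟨w1, w2, w3, hw3, hm⟩ := not_U_three h.e13
  simp only [Nat.reduceAdd] at hm
  have f1 : w1.count 1 + (w2.count 1 + w3.count 1) = 3 := by
    have : (w1 ++ (w2 ++ w3)).count 1 = 3 := by rw [← hw3]; exact hc1
    rwa [List.count_append, List.count_append] at this
  have f2 : w1.count 2 + (w2.count 2 + w3.count 2) = 1 := by
    have : (w1 ++ (w2 ++ w3)).count 2 = 1 := by rw [← hw3]; exact hc2
    rwa [List.count_append, List.count_append] at this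
  have f3 : w1.count 3 + (w2.count 3 + w3.count 3) = 3 := by
    have : (w1 ++ (w2 ++ w3)).count 3 = 3 := by rw [← hw3]; exact hc3
    rwa [List.count_append, List.count_append] at this
  by_cases hz : w2.count 2 = 0
  · -- the chain avoids the letter `2`
    have g1 : 1 ≤ w1.count 3 := by
      by_contra hcon
      have h0 : w1.count 3 = 0 := by omega
      have := h.G1 hw3 h0
      have hpos : 0 < w1.count 1 := by omega
      have := this 1 (List.count_pos_iff.1 hpos)
      omega
    have g2 : 1 ≤ w2.count 1 + w3.count 1 := by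
      by_contra hcon
      have h0 : (w2 ++ w3).count 1 = 0 := by rw [List.count_append]; omega
      have := h.G2 hw3 h0
      have hpos : 0 < w3.count 3 := by omega
      have := this 3 (List.mem_append_right _ (List.count_pos_iff.1 hpos))
      omega
    rw [hw3] at h1
    rcases List.append_eq_append_iff.1 h1 with ⟨T, g3, -⟩ | ⟨T, g3, -⟩
    · have g4 : (A' ++ 3 :: Q).count 3 = Q.count 3 + 1 := by
        rw [List.count_append, List.count_cons_self]; omega
      rw [g3, List.count_append] at g4
      rw [g3] at hU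
      have := hU.two 1 3 (by norm_num) (by norm_num) le_rfl
      omega
    · rw [g3, List.count_append, List.count_append, List.count_cons_self] at f3
      have : w1.count 3 = A'.count 3 + (Q.count 3 + 1) + T.count 3 := by
        rw [g3, List.count_append, List.count_append, List.count_cons_self]
      omega
  · rcases loc hw3.symm hc2 with ⟨e1, a', e2, e3⟩ | ⟨c', e2, e3⟩
    · have f4 : X.count 1 = w1.count 1 + a'.count 1 := by rw [e2, List.count_append]
      rcases loc e3 (by
        have := h.c2
        rw [e2, List.append_assoc, List.count_append, e1, zero_add] at this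
        exact this) with ⟨g1, b', g2, g3⟩ | ⟨c', g2, g3⟩
      · exact hz g1
      · have f5 : Y.count 3 = c'.count 3 + w3.count 3 := by rw [g3, List.count_append]
        omega
    · have f4 : 1 ≤ w1.count 2 := by rw [e2, List.count_append, List.count_cons_self]; omega
      omega

/-- Words of the first type do not end with `0`. -/
theorem Cl.last {k : ℕ} {X Y w' : List ℕ} (h : Cl k (X ++ 2 :: Y)) (hA : X.count 1 = 2)
    (hw : X ++ 2 :: Y = w' ++ [0]) : False := by
  have hd := h.dual
  have e : D (X ++ 2 :: Y) = D Y ++ 2 :: D X := by simp [D]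
  have hY : ∀ x ∈ Y, x ≤ 4 := fun x hx => h.le4 x (by simp [hx])
  have e' : D (X ++ 2 :: Y) = 4 :: D w' := by rw [hw]; simp [D]
  rw [e] at hd e'
  refine hd.first ?_ e'
  rw [count_D hY (by norm_num)]
  have hc1 := h.c1
  have k1 : (X ++ 2 :: Y).count 1 = X.count 1 + Y.count 1 := by simp
  simp only [Nat.reduceSub]
  omega

end Pool.Agent.Q274.GM
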