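import Pool.Agent.Q274.GM.Cls

/-!
Short relations do not connect the two types.
-/

namespace Pool.Agent.Q274.GM

/-- The first type: exactly two letters `1` before a letter `2`. -/
def TA (w : List ℕ) : Prop := ∃ X Y, w = X ++ 2 :: Y ∧ X.count 1 = 2

theorem key {k : ℕ} {a s t b : List ℕ} (h : G s t) (hC : Cl k (a ++ (s ++ b)))
    (hA : TA (a ++ (s ++ b))) (hB : ¬ TA (a ++ (t ++ b))) : a = [] ∧ b = [] := by
  have hC' : Cl k (a ++ (t ++ b)) := hC.congr (h.ctx a b)
  obtain ⟨X, Y, hXY, hX1⟩ := hA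
  have hC2 : (X ++ 2 :: Y).count 2 = 1 := hXY ▸ hC.c2
  rcases loc hXY hC2 with ⟨e1, a', e2, e3⟩ | ⟨c, e2, e3⟩
  swap
  · exact absurd ⟨X, c ++ (t ++ b), by rw [e2]; simp, hX1⟩ hB
  rcases loc e3 (by
    rw [e2, List.append_assoc, List.count_append, e1, zero_add] at hC2
    exact hC2) with ⟨g1, b', g2, g3⟩ | ⟨s2, g2, g3⟩
  · refine absurd ⟨a ++ (t ++ b'), Y, by rw [g3]; simp, ?_⟩ hB
    rw [e2, g2, List.count_append, List.count_append] at hX1
    rw [List.count_append, List.count_append, ← h.count]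
    exact hX1
  -- now `s = a' ++ 2 :: s2`
  have hs2 : 2 ∈ s := by rw [g2]; simp
  obtain ⟨t1, t2, ht⟩ := List.append_of_mem (h.mem hs2)
  have hw' : a ++ (t ++ b) = (a ++ t1) ++ 2 :: (t2 ++ b) := by rw [ht]; simp
  have hX3 : 2 ≤ X.count 3 := by
    have := (hXY ▸ hC : Cl k (X ++ 2 :: Y)).types
    omega
  have hBc : (a ++ t1).count 1 ≤ 1 ∧ (a ++ t1).count 3 = 1 := by
    rcases (hw' ▸ hC' : Cl k ((a ++ t1) ++ 2 :: (t2 ++ b))).types with h1 | h1
    · exact absurd ⟨a ++ t1, t2 ++ b, hw', h1.1⟩ hB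
    · exact h1
  have sc1 := h.count 1
  have sc2 := h.count 2
  have sc3 := h.count 3
  have hs1 : s.count 1 = a'.count 1 + s2.count 1 := by rw [g2]; simp
  have hs22 : s.count 2 = a'.count 2 + (s2.count 2 + 1) := by rw [g2]; simp
  have hs3 : s.count 3 = a'.count 3 + s2.count 3 := by rw [g2]; simp
  have ht1 : t.count 1 = t1.count 1 + t2.count 1 := by rw [ht]; simp
  have ht22 : t.count 2 = t1.count 2 + (t2.count 2 + 1) := by rw [ht]; simp
  have ht3 : t.count 3 = t1.count 3 + t2.count 3 := by rw [ht]; simp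
  have w1 : a.count 1 + (s.count 1 + b.count 1) = 3 := by
    have := hC.c1
    rwa [List.count_append, List.count_append] at this
  have w2 : a.count 2 + (s.count 2 + b.count 2) = 1 := by
    have := hC.c2
    rwa [List.count_append, List.count_append] at this
  rw [List.count_append, List.count_append] at hBc
  rw [e2, List.count_append] at hX1 hX3
  -- the letters `1`
  have u12 : U 1 2 (max (t1.count 1 + 1) (t.count 1)) t := by
    by_contra hcon
    obtain ⟨v1, v2, hv, hm⟩ := not_U_two hcon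
    simp only [Nat.reduceAdd] at hm
    have f2 : v1.count 2 + v2.count 2 = t.count 2 := by rw [hv, List.count_append]
    have f1 : v1.count 1 + v2.count 1 = t.count 1 := by rw [hv, List.count_append]
    rcases loc (hv.symm.trans ht) (by rw [← ht]; omega) with ⟨_, a'', k2, _⟩ | ⟨c, k2, _⟩
    · have : t1.count 1 = v1.count 1 + a''.count 1 := by rw [k2, List.count_append]
      omega
    · have : v1.count 2 = t1.count 2 + (c.count 2 + 1) := by rw [k2]; simp
      omega
  have u12s : U 1 2 (max (t1.count 1 + 1) (t.count 1)) s := (h _ _ _).2 u12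
  rw [g2] at u12s
  have i1 := u12s.two 1 2 le_rfl (by norm_num) le_rfl
  rw [List.count_cons_self] at i1
  have hb1 : b.count 1 = 0 := by omega
  -- the letters `3`
  have u23 : U 2 3 (max (s2.count 3 + 1) (s.count 3)) s := by
    by_contra hcon
    obtain ⟨v1, v2, hv, hm⟩ := not_U_two hcon
    simp only [Nat.reduceAdd] at hm
    have f2 : v1.count 2 + v2.count 2 = s.count 2 := by rw [hv, List.count_append]
    have f3 : v1.count 3 + v2.count 3 = s.count 3 := by rw [hv, List.count_append]
    rcases loc (hv.symm.trans g2) (by rw [← g2]; omega) with ⟨k1, a'', k2, _⟩ | ⟨c, k2, k3⟩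
    · omega
    · have : s2.count 3 = c.count 3 + v2.count 3 := by rw [k3, List.count_append]
      omega
  have u23t : U 2 3 (max (s2.count 3 + 1) (s.count 3)) t := (h _ _ _).1 u23
  have ht' : t = (t1 ++ [2]) ++ t2 := by rw [ht]; simp
  rw [ht'] at u23t
  have i3 := u23t.two 2 3 le_rfl (by norm_num) le_rfl
  have i3' : (t1 ++ [2]).count 2 = t1.count 2 + 1 := by simp
  have ha3 : a.count 3 = 0 := by omega
  constructor
  · by_contra hne
    obtain ⟨x, a1, hxa⟩ := List.exists_cons_of_ne_nil hne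
    have := hC.G1 rfl ha3 x (by rw [hxa]; simp)
    refine (hw' ▸ hC' : Cl k ((a ++ t1) ++ 2 :: (t2 ++ b))).first
      (by rw [List.count_append]; omega) (w' := a1 ++ (t1 ++ 2 :: (t2 ++ b))) ?_
    rw [hxa, this]
    simp
  · by_contra hne
    rcases List.eq_nil_or_concat b with hb | ⟨b1, y, hb⟩
    · exact hne hb
    · rw [List.concat_eq_append] at hb
      have e : a ++ (s ++ b) = (a ++ s) ++ b := by simp
      have := hC.G2 e hb1 y (by rw [hb]; simp)
      refine (hXY ▸ hC : Cl k (X ++ 2 :: Y)).last (by rw [e2, List.count_append]; omega)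
        (w' := a ++ (s ++ b1)) ?_
      rw [← hXY, hb, this]
      simp

end Pool.Agent.Q274.GM
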