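import Pool.Agent.Q274.GM.Words

/-!
The words `u` and `v` are grammic equivalent, and lie in the class `Cl k`.
-/

namespace Pool.Agent.Q274.GM

/-- The end of `u`. -/
def Tu : List ℕ := [4, 1, 0, 4, 3, 0, 4, 3, 2, 1]

/-- The end of `v`. -/
def Tv : List ℕ := [4, 2, 0, 4, 3, 1, 4, 3, 1, 0]

theorem uw_eq (j : ℕ) : uw j = Xw j ++ Tu := rfl

theorem vw_eq (j : ℕ) : vw j = Xw j ++ Tv := rfl

theorem Tu0 : dp 0 Tu 0 = 2 := by decide

theorem Tv0 : dp 0 Tv 0 = 2 := by decide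

theorem Tu1 : dp 0 Tu 1 = 3 ∧ dp 1 Tu 1 = 2 := by decide

theorem Tv1 : dp 0 Tv 1 = 3 ∧ dp 1 Tv 1 = 2 := by decide

theorem Tu2 : dp 0 Tu 2 = 3 ∧ dp 1 Tu 2 = 2 ∧ dp 2 Tu 2 = 1 := by decide

theorem Tv2 : dp 0 Tv 2 = 3 ∧ dp 1 Tv 2 = 2 ∧ dp 2 Tv 2 = 1 := by decide

theorem Tu3 : dp 0 Tu 3 = 3 ∧ dp 1 Tu 3 = 3 ∧ dp 2 Tu 3 = 2 ∧ dp 3 Tu 3 = 2 := by decide

theorem Tv3 : dp 0 Tv 3 = 3 ∧ dp 1 Tv 3 = 3 ∧ dp 2 Tv 3 = 3 ∧ dp 3 Tv 3 = 2 := by decide

theorem Tu4 : dp 0 Tu 4 = 3 ∧ dp 1 Tu 4 = 3 ∧ dp 2 Tu 4 = 3 ∧ dp 3 Tu 4 = 3 ∧ dp 4 Tu 4 = 3 := by decide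

theorem Tv4 : dp 0 Tv 4 = 3 ∧ dp 1 Tv 4 = 3 ∧ dp 2 Tv 4 = 3 ∧ dp 3 Tv 4 = 3 ∧ dp 4 Tv 4 = 3 := by decide

theorem G00 (j m : ℕ) :
    (∀ x, 0 ≤ x → x ≤ 0 → dp 0 (Xw j) x + dp x Tu 0 ≤ m) ↔
      (∀ x, 0 ≤ x → x ≤ 0 → dp 0 (Xw j) x + dp x Tv 0 ≤ m) := by
  obtain ⟨x0, x1, x2, x3, x4⟩ := X0 j
  obtain s0 := Tu0
  obtain t0 := Tv0
  constructor
  · intro h x hx1 hx2
    have a0 := h 0 (by norm_num) (by norm_num)
    interval_cases x <;> omega
  · intro h x hx1 hx2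
    have a0 := h 0 (by norm_num) (by norm_num)
    interval_cases x <;> omega

theorem G01 (j m : ℕ) :
    (∀ x, 0 ≤ x → x ≤ 1 → dp 0 (Xw j) x + dp x Tu 1 ≤ m) ↔
      (∀ x, 0 ≤ x → x ≤ 1 → dp 0 (Xw j) x + dp x Tv 1 ≤ m) := by
  obtain ⟨x0, x1, x2, x3, x4⟩ := X0 j
  obtain ⟨s0, s1⟩ := Tu1
  obtain ⟨t0, t1⟩ := Tv1
  constructor
  · intro h x hx1 hx2
    have a0 := h 0 (by norm_num) (by norm_num)
    have a1 := h 1 (by norm_num) (by norm_num)
    interval_cases x <;> omega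
  · intro h x hx1 hx2
    have a0 := h 0 (by norm_num) (by norm_num)
    have a1 := h 1 (by norm_num) (by norm_num)
    interval_cases x <;> omega

theorem G02 (j m : ℕ) :
    (∀ x, 0 ≤ x → x ≤ 2 → dp 0 (Xw j) x + dp x Tu 2 ≤ m) ↔
      (∀ x, 0 ≤ x → x ≤ 2 → dp 0 (Xw j) x + dp x Tv 2 ≤ m) := by
  obtain ⟨x0, x1, x2, x3, x4⟩ := X0 j
  obtain ⟨s0, s1, s2⟩ := Tu2
  obtain ⟨t0, t1, t2⟩ := Tv2
  constructor
  · intro h x hx1 hx2
    have a0 := h 0 (by norm_num) (by norm_num)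
    have a1 := h 1 (by norm_num) (by norm_num)
    have a2 := h 2 (by norm_num) (by norm_num)
    interval_cases x <;> omega
  · intro h x hx1 hx2
    have a0 := h 0 (by norm_num) (by norm_num)
    have a1 := h 1 (by norm_num) (by norm_num)
    have a2 := h 2 (by norm_num) (by norm_num)
    interval_cases x <;> omega

theorem G03 (j m : ℕ) :
    (∀ x, 0 ≤ x → x ≤ 3 → dp 0 (Xw j) x + dp x Tu 3 ≤ m) ↔
      (∀ x, 0 ≤ x → x ≤ 3 → dp 0 (Xw j) x + dp x Tv 3 ≤ m) := by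
  obtain ⟨x0, x1, x2, x3, x4⟩ := X0 j
  obtain ⟨s0, s1, s2, s3⟩ := Tu3
  obtain ⟨t0, t1, t2, t3⟩ := Tv3
  constructor
  · intro h x hx1 hx2
    have a0 := h 0 (by norm_num) (by norm_num)
    have a1 := h 1 (by norm_num) (by norm_num)
    have a2 := h 2 (by norm_num) (by norm_num)
    have a3 := h 3 (by norm_num) (by norm_num)
    interval_cases x <;> omega
  · intro h x hx1 hx2
    have a0 := h 0 (by norm_num) (by norm_num)
    have a1 := h 1 (by norm_num) (by norm_num)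
    have a2 := h 2 (by norm_num) (by norm_num)
    have a3 := h 3 (by norm_num) (by norm_num)
    interval_cases x <;> omega

theorem G04 (j m : ℕ) :
    (∀ x, 0 ≤ x → x ≤ 4 → dp 0 (Xw j) x + dp x Tu 4 ≤ m) ↔
      (∀ x, 0 ≤ x → x ≤ 4 → dp 0 (Xw j) x + dp x Tv 4 ≤ m) := by
  obtain ⟨x0, x1, x2, x3, x4⟩ := X0 j
  obtain ⟨s0, s1, s2, s3, s4⟩ := Tu4
  obtain ⟨t0, t1, t2, t3, t4⟩ := Tv4
  constructor
  · intro h x hx1 hx2
    have a0 := h 0 (by norm_num) (by norm_num)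
    have a1 := h 1 (by norm_num) (by norm_num)
    have a2 := h 2 (by norm_num) (by norm_num)
    have a3 := h 3 (by norm_num) (by norm_num)
    have a4 := h 4 (by norm_num) (by norm_num)
    interval_cases x <;> omega
  · intro h x hx1 hx2
    have a0 := h 0 (by norm_num) (by norm_num)
    have a1 := h 1 (by norm_num) (by norm_num)
    have a2 := h 2 (by norm_num) (by norm_num)
    have a3 := h 3 (by norm_num) (by norm_num)
    have a4 := h 4 (by norm_num) (by norm_num)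
    interval_cases x <;> omega

theorem G11 (j m : ℕ) :
    (∀ x, 1 ≤ x → x ≤ 1 → dp 1 (Xw j) x + dp x Tu 1 ≤ m) ↔
      (∀ x, 1 ≤ x → x ≤ 1 → dp 1 (Xw j) x + dp x Tv 1 ≤ m) := by
  obtain ⟨x1, x2, x3, x4⟩ := X1 j
  obtain ⟨s0, s1⟩ := Tu1
  obtain ⟨t0, t1⟩ := Tv1
  constructor
  · intro h x hx1 hx2
    have a1 := h 1 (by norm_num) (by norm_num)
    interval_cases x <;> omega
  · intro h x hx1 hx2
    have a1 := h 1 (by norm_num) (by norm_num)
    interval_cases x <;> omega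

theorem G12 (j m : ℕ) :
    (∀ x, 1 ≤ x → x ≤ 2 → dp 1 (Xw j) x + dp x Tu 2 ≤ m) ↔
      (∀ x, 1 ≤ x → x ≤ 2 → dp 1 (Xw j) x + dp x Tv 2 ≤ m) := by
  obtain ⟨x1, x2, x3, x4⟩ := X1 j
  obtain ⟨s0, s1, s2⟩ := Tu2
  obtain ⟨t0, t1, t2⟩ := Tv2
  constructor
  · intro h x hx1 hx2
    have a1 := h 1 (by norm_num) (by norm_num)
    have a2 := h 2 (by norm_num) (by norm_num)
    interval_cases x <;> omega
  · intro h x hx1 hx2
    have a1 := h 1 (by norm_num) (by norm_num)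
    have a2 := h 2 (by norm_num) (by norm_num)
    interval_cases x <;> omega

theorem G13 (j m : ℕ) :
    (∀ x, 1 ≤ x → x ≤ 3 → dp 1 (Xw j) x + dp x Tu 3 ≤ m) ↔
      (∀ x, 1 ≤ x → x ≤ 3 → dp 1 (Xw j) x + dp x Tv 3 ≤ m) := by
  obtain ⟨x1, x2, x3, x4⟩ := X1 j
  obtain ⟨s0, s1, s2, s3⟩ := Tu3
  obtain ⟨t0, t1, t2, t3⟩ := Tv3
  constructor
  · intro h x hx1 hx2
    have a1 := h 1 (by norm_num) (by norm_num)
    have a2 := h 2 (by norm_num) (by norm_num)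
    have a3 := h 3 (by norm_num) (by norm_num)
    interval_cases x <;> omega
  · intro h x hx1 hx2
    have a1 := h 1 (by norm_num) (by norm_num)
    have a2 := h 2 (by norm_num) (by norm_num)
    have a3 := h 3 (by norm_num) (by norm_num)
    interval_cases x <;> omega

theorem G14 (j m : ℕ) :
    (∀ x, 1 ≤ x → x ≤ 4 → dp 1 (Xw j) x + dp x Tu 4 ≤ m) ↔
      (∀ x, 1 ≤ x → x ≤ 4 → dp 1 (Xw j) x + dp x Tv 4 ≤ m) := by
  obtain ⟨x1, x2, x3, x4⟩ := X1 j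
  obtain ⟨s0, s1, s2, s3, s4⟩ := Tu4
  obtain ⟨t0, t1, t2, t3, t4⟩ := Tv4
  constructor
  · intro h x hx1 hx2
    have a1 := h 1 (by norm_num) (by norm_num)
    have a2 := h 2 (by norm_num) (by norm_num)
    have a3 := h 3 (by norm_num) (by norm_num)
    have a4 := h 4 (by norm_num) (by norm_num)
    interval_cases x <;> omega
  · intro h x hx1 hx2
    have a1 := h 1 (by norm_num) (by norm_num)
    have a2 := h 2 (by norm_num) (by norm_num)
    have a3 := h 3 (by norm_num) (by norm_num)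
    have a4 := h 4 (by norm_num) (by norm_num)
    interval_cases x <;> omega

theorem G22 (j m : ℕ) :
    (∀ x, 2 ≤ x → x ≤ 2 → dp 2 (Xw j) x + dp x Tu 2 ≤ m) ↔
      (∀ x, 2 ≤ x → x ≤ 2 → dp 2 (Xw j) x + dp x Tv 2 ≤ m) := by
  obtain ⟨x2, x3, x4⟩ := X2 j
  obtain ⟨s0, s1, s2⟩ := Tu2
  obtain ⟨t0, t1, t2⟩ := Tv2
  constructor
  · intro h x hx1 hx2
    have a2 := h 2 (by norm_num) (by norm_num)
    interval_cases x <;> omega
  · intro h x hx1 hx2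
    have a2 := h 2 (by norm_num) (by norm_num)
    interval_cases x <;> omega

theorem G23 (j m : ℕ) :
    (∀ x, 2 ≤ x → x ≤ 3 → dp 2 (Xw j) x + dp x Tu 3 ≤ m) ↔
      (∀ x, 2 ≤ x → x ≤ 3 → dp 2 (Xw j) x + dp x Tv 3 ≤ m) := by
  obtain ⟨x2, x3, x4⟩ := X2 j
  obtain ⟨s0, s1, s2, s3⟩ := Tu3
  obtain ⟨t0, t1, t2, t3⟩ := Tv3
  constructor
  · intro h x hx1 hx2
    have a2 := h 2 (by norm_num) (by norm_num)
    have a3 := h 3 (by norm_num) (by norm_num)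
    interval_cases x <;> omega
  · intro h x hx1 hx2
    have a2 := h 2 (by norm_num) (by norm_num)
    have a3 := h 3 (by norm_num) (by norm_num)
    interval_cases x <;> omega

theorem G24 (j m : ℕ) :
    (∀ x, 2 ≤ x → x ≤ 4 → dp 2 (Xw j) x + dp x Tu 4 ≤ m) ↔
      (∀ x, 2 ≤ x → x ≤ 4 → dp 2 (Xw j) x + dp x Tv 4 ≤ m) := by
  obtain ⟨x2, x3, x4⟩ := X2 j
  obtain ⟨s0, s1, s2, s3, s4⟩ := Tu4
  obtain ⟨t0, t1, t2, t3, t4⟩ := Tv4
  constructor
  · intro h x hx1 hx2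
    have a2 := h 2 (by norm_num) (by norm_num)
    have a3 := h 3 (by norm_num) (by norm_num)
    have a4 := h 4 (by norm_num) (by norm_num)
    interval_cases x <;> omega
  · intro h x hx1 hx2
    have a2 := h 2 (by norm_num) (by norm_num)
    have a3 := h 3 (by norm_num) (by norm_num)
    have a4 := h 4 (by norm_num) (by norm_num)
    interval_cases x <;> omega

theorem G33 (j m : ℕ) :
    (∀ x, 3 ≤ x → x ≤ 3 → dp 3 (Xw j) x + dp x Tu 3 ≤ m) ↔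
      (∀ x, 3 ≤ x → x ≤ 3 → dp 3 (Xw j) x + dp x Tv 3 ≤ m) := by
  obtain ⟨x3, x4⟩ := X3 j
  obtain ⟨s0, s1, s2, s3⟩ := Tu3
  obtain ⟨t0, t1, t2, t3⟩ := Tv3
  constructor
  · intro h x hx1 hx2
    have a3 := h 3 (by norm_num) (by norm_num)
    interval_cases x <;> omega
  · intro h x hx1 hx2
    have a3 := h 3 (by norm_num) (by norm_num)
    interval_cases x <;> omega

theorem G34 (j m : ℕ) :
    (∀ x, 3 ≤ x → x ≤ 4 → dp 3 (Xw j) x + dp x Tu 4 ≤ m) ↔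
      (∀ x, 3 ≤ x → x ≤ 4 → dp 3 (Xw j) x + dp x Tv 4 ≤ m) := by
  obtain ⟨x3, x4⟩ := X3 j
  obtain ⟨s0, s1, s2, s3, s4⟩ := Tu4
  obtain ⟨t0, t1, t2, t3, t4⟩ := Tv4
  constructor
  · intro h x hx1 hx2
    have a3 := h 3 (by norm_num) (by norm_num)
    have a4 := h 4 (by norm_num) (by norm_num)
    interval_cases x <;> omega
  · intro h x hx1 hx2
    have a3 := h 3 (by norm_num) (by norm_num)
    have a4 := h 4 (by norm_num) (by norm_num)
    interval_cases x <;> omega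

theorem G44 (j m : ℕ) :
    (∀ x, 4 ≤ x → x ≤ 4 → dp 4 (Xw j) x + dp x Tu 4 ≤ m) ↔
      (∀ x, 4 ≤ x → x ≤ 4 → dp 4 (Xw j) x + dp x Tv 4 ≤ m) := by
  obtain x4 := X4 j
  obtain ⟨s0, s1, s2, s3, s4⟩ := Tu4
  obtain ⟨t0, t1, t2, t3, t4⟩ := Tv4
  constructor
  · intro h x hx1 hx2
    have a4 := h 4 (by norm_num) (by norm_num)
    interval_cases x <;> omega
  · intro h x hx1 hx2
    have a4 := h 4 (by norm_num) (by norm_num)
    interval_cases x <;> omega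

theorem uw_le (j : ℕ) : ∀ x ∈ uw j, x ≤ 4 := by
  intro x hx
  rw [uw_eq, List.mem_append] at hx
  rcases hx with h | h
  · exact Xw_le j x h
  · revert x; decide

theorem vw_le (j : ℕ) : ∀ x ∈ vw j, x ≤ 4 := by
  intro x hx
  rw [vw_eq, List.mem_append] at hx
  rcases hx with h | h
  · exact Xw_le j x h
  · revert x; decide

theorem G_uv (j : ℕ) : G (uw j) (vw j) := by
  intro p q m
  rw [U_min (uw_le j), U_min (vw_le j)]
  have hq' : min q 4 ≤ 4 := min_le_right _ _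
  generalize min q 4 = q' at hq'
  rcases lt_or_ge q' p with h | h
  · exact ⟨fun _ => U_triv h, fun _ => U_triv h⟩
  rw [uw_eq, vw_eq, U_append_iff h, U_append_iff h]
  interval_cases q' <;> interval_cases p

  · exact G00 j m
  · exact G01 j m
  · exact G11 j m
  · exact G02 j m
  · exact G12 j m
  · exact G22 j m
  · exact G03 j m
  · exact G13 j m
  · exact G23 j m
  · exact G33 j m
  · exact G04 j m
  · exact G14 j m
  · exact G24 j m
  · exact G34 j m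
  · exact G44 j m

theorem uw_length (j : ℕ) : (uw j).length = 2 * j + 13 := by
  rw [uw_eq, List.length_append, Xw_length]; simp [Tu]

theorem vw_length (j : ℕ) : (vw j).length = 2 * j + 13 := by
  rw [vw_eq, List.length_append, Xw_length]; simp [Tv]

theorem u04 (j : ℕ) : U 0 4 (j + 4) (uw j) := by
  obtain ⟨x0, x1, x2, x3, x4⟩ := X0 j
  obtain ⟨s0, s1, s2, s3, s4⟩ := Tu4
  rw [uw_eq, U_append_iff (by norm_num)]
  intro x hx1 hx2
  interval_cases x <;> omega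

theorem u13 (j : ℕ) : U 1 3 (4) (uw j) := by
  obtain ⟨x1, x2, x3, x4⟩ := X1 j
  obtain ⟨s0, s1, s2, s3⟩ := Tu3
  rw [uw_eq, U_append_iff (by norm_num)]
  intro x hx1 hx2
  interval_cases x <;> omega

theorem u12 (j : ℕ) : U 1 2 (3) (uw j) := by
  obtain ⟨x1, x2, x3, x4⟩ := X1 j
  obtain ⟨s0, s1, s2⟩ := Tu2
  rw [uw_eq, U_append_iff (by norm_num)]
  intro x hx1 hx2
  interval_cases x <;> omega

theorem u23 (j : ℕ) : U 2 3 (3) (uw j) := by
  obtain ⟨x2, x3, x4⟩ := X2 j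
  obtain ⟨s0, s1, s2, s3⟩ := Tu3
  rw [uw_eq, U_append_iff (by norm_num)]
  intro x hx1 hx2
  interval_cases x <;> omega

theorem e01 (j : ℕ) : ¬ U 0 1 (j + 3) (uw j) := by
  obtain ⟨x0, x1, x2, x3, x4⟩ := X0 j
  obtain ⟨s0, s1⟩ := Tu1
  rw [uw_eq, U_append_iff (by norm_num)]
  intro h
  have a0 := h 0 (by norm_num) (by norm_num)
  have a1 := h 1 (by norm_num) (by norm_num)
  omega

theorem e34 (j : ℕ) : ¬ U 3 4 (j + 3) (uw j) := by
  obtain ⟨x3, x4⟩ := X3 j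
  obtain ⟨s0, s1, s2, s3, s4⟩ := Tu4
  rw [uw_eq, U_append_iff (by norm_num)]
  intro h
  have a3 := h 3 (by norm_num) (by norm_num)
  have a4 := h 4 (by norm_num) (by norm_num)
  omega

theorem e13 (j : ℕ) : ¬ U 1 3 (3) (uw j) := by
  obtain ⟨x1, x2, x3, x4⟩ := X1 j
  obtain ⟨s0, s1, s2, s3⟩ := Tu3
  rw [uw_eq, U_append_iff (by norm_num)]
  intro h
  have a1 := h 1 (by norm_num) (by norm_num)
  have a2 := h 2 (by norm_num) (by norm_num)
  have a3 := h 3 (by norm_num) (by norm_num)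
  omega

theorem Cl_u (j : ℕ) : Cl (j + 3) (uw j) := by
  obtain ⟨h0, h1, h2, h3, h4⟩ := Xw_count j
  refine ⟨uw_le j, ?_, ?_, ?_, ?_, ?_, ?_, ?_, ?_, ?_, ?_, ?_, ?_⟩
  · rw [uw_eq, List.count_append, h0, show Tu.count 0 = 2 from rfl]
  · rw [uw_eq, List.count_append, h1, show Tu.count 1 = 2 from rfl]
  · rw [uw_eq, List.count_append, h2, show Tu.count 2 = 1 from rfl]
  · rw [uw_eq, List.count_append, h3, show Tu.count 3 = 2 from rfl]
  · rw [uw_eq, List.count_append, h4, show Tu.count 4 = 3 from rfl]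
  · exact u04 j
  · exact u13 j
  · exact u12 j
  · exact u23 j
  · exact e01 j
  · exact e34 j
  · exact e13 j

theorem TA_u (j : ℕ) : TA (uw j) := by
  obtain ⟨h0, h1, h2, h3, h4⟩ := Xw_count j
  refine ⟨Xw j ++ [4, 1, 0, 4, 3, 0, 4, 3], [1], by rw [uw_eq]; simp [Tu], ?_⟩
  rw [List.count_append, h1]
  rfl

theorem TA_v (j : ℕ) : ¬ TA (vw j) := by
  rintro ⟨X, Y, h, h1⟩
  obtain ⟨k0, k1, k2, k3, k4⟩ := Xw_count j
  have hc : (vw j).count 2 = 1 := by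
    rw [vw_eq, List.count_append, k2]; rfl
  have hX : 2 ∉ X := by
    intro hX
    have := List.count_pos_iff.2 hX
    rw [h, List.count_append, List.count_cons_self] at hc
    omega
  have h' : X ++ 2 :: Y = (Xw j ++ [4]) ++ 2 :: [0, 4, 3, 1, 4, 3, 1, 0] := by
    rw [← h, vw_eq]; simp [Tv]
  have hX' : 2 ∉ Xw j ++ [4] := by
    rw [← List.count_eq_zero, List.count_append, k2]; rfl
  obtain ⟨e, -⟩ := first_unique hX hX' h'
  rw [e, List.count_append, k1] at h1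
  revert h1
  decide

end Pool.Agent.Q274.GM

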