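import Pool.Agent.Q274.GM.Key

/-!
The words `u_k = 310 (40)^(k-3) 410 430 4321` and `v_k = 310 (40)^(k-3) 420 431 4310`.
-/

namespace Pool.Agent.Q274.GM

/-- One step of the dynamic program for longest weakly increasing subsequences. -/
def step (p : ℕ) (f : ℕ → ℕ) (x : ℕ) : ℕ → ℕ :=
  fun q => if p ≤ x ∧ x ≤ q then max (f q) (f x + 1) else f q

/-- The longest weakly increasing subsequence with letters in `[p, q]`. -/
def dp (p : ℕ) (w : List ℕ) : ℕ → ℕ := w.foldl (step p) (fun _ => 0)

theorem dp_snoc (p : ℕ) (w : List ℕ) (x : ℕ) : dp p (w ++ [x]) = step p (dp p w) x := by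
  simp [dp, List.foldl_append]

theorem dp_spec (p : ℕ) (w : List ℕ) :
    ∀ q, U p q (dp p w q) w ∧ ∃ s, Inc p q s w ∧ s.length = dp p w q := by
  induction w using List.reverseRecOn with
  | nil =>
    intro q
    refine ⟨fun s hs => ?_, [], Inc.nil _ _ _, rfl⟩
    have := List.sublist_nil.1 hs.1
    simp [this]
  | append_singleton w x ih =>
    intro q
    rw [dp_snoc]
    constructor
    · intro s hs
      obtain ⟨s1, s2, h1, h2, h3⟩ := List.sublist_append_iff.1 hs.1
      have hs2 : s2 = [] ∨ s2 = [x] := by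
        have hl := h3.length_le
        simp only [List.length_singleton] at hl
        rcases Nat.le_one_iff_eq_zero_or_eq_one.1 hl with h | h
        · exact Or.inl (List.length_eq_zero_iff.1 h)
        · exact Or.inr (h3.eq_of_length (by simpa using h))
      rcases hs2 with h | h
      · subst h
        rw [List.append_nil] at h1
        subst h1
        have := (ih q).1 s ⟨h2, hs.2.1, hs.2.2⟩
        unfold step
        split_ifs
        · exact this.trans (le_max_left _ _)
        · exact this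
      · subst h
        subst h1
        have hx := hs.2.2 x (by simp)
        have hp := List.pairwise_append.1 hs.2.1
        have := (ih x).1 s1 ⟨h2, hp.1, fun y hy =>
          ⟨(hs.2.2 y (by simp [hy])).1, hp.2.2 y hy x (by simp)⟩⟩
        unfold step
        rw [if_pos hx]
        simp only [List.length_append, List.length_singleton]
        exact (Nat.add_le_add_right this 1).trans (le_max_right _ _)
    · obtain ⟨s, hs, hl⟩ := (ih q).2
      have old : Inc p q s (w ++ [x]) :=
        ⟨hs.1.trans (List.sublist_append_left _ _), hs.2.1, hs.2.2⟩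
      unfold step
      split_ifs with hc
      · rcases le_total (dp p w q) (dp p w x + 1) with h | h
        · rw [max_eq_right h]
          obtain ⟨s', hs', hl'⟩ := (ih x).2
          refine ⟨s' ++ [x], ?_, by simp [hl']⟩
          refine ⟨hs'.1.append (List.Sublist.refl _), ?_, ?_⟩
          · rw [List.pairwise_append]
            refine ⟨hs'.2.1, by simp, ?_⟩
            intro y hy z hz
            rw [List.mem_singleton.1 hz]
            exact (hs'.2.2 y hy).2
          · intro y hy
            rcases List.mem_append.1 hy with h | h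
            · exact ⟨(hs'.2.2 y h).1, (hs'.2.2 y h).2.trans hc.2⟩
            · rw [List.mem_singleton.1 h]; exact hc
        · rw [max_eq_left h]
          exact ⟨s, old, hl⟩
      · exact ⟨s, old, hl⟩

theorem U_append_iff {p q m : ℕ} (hpq : p ≤ q) (X T : List ℕ) :
    U p q m (X ++ T) ↔ ∀ x, p ≤ x → x ≤ q → dp p X x + dp x T q ≤ m := by
  constructor
  · intro h x hx1 hx2
    obtain ⟨s1, h1, l1⟩ := (dp_spec p X x).2
    obtain ⟨s2, h2, l2⟩ := (dp_spec x T q).2
    have := h _ (h1.append h2 hx1 hx2)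
    rw [List.length_append] at this
    omega
  · intro h s hs
    obtain ⟨s1, s2, h1, h2, h3⟩ := List.sublist_append_iff.1 hs.1
    subst h1
    have hp := List.pairwise_append.1 hs.2.1
    rcases List.eq_nil_or_concat s1 with h0 | ⟨s1', y, h0⟩
    · subst h0
      have := (dp_spec p T q).1 s2 ⟨h3, hp.2.1, fun z hz => hs.2.2 z (by simp [hz])⟩
      have h' := h p le_rfl hpq
      rw [List.nil_append]
      omega
    · rw [List.concat_eq_append] at h0
      have hy : y ∈ s1 := by rw [h0]; simp
      have hyl : ∀ z ∈ s1, z ≤ y := by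
        intro z hz
        have hp1 := hp.1
        rw [h0] at hz hp1
        rcases List.mem_append.1 hz with h | h
        · exact (List.pairwise_append.1 hp1).2.2 z h y (by simp)
        · rw [List.mem_singleton.1 h]
      have a1 := (dp_spec p X y).1 s1 ⟨h2, hp.1, fun z hz =>
        ⟨(hs.2.2 z (by simp [hz])).1, hyl z hz⟩⟩
      have a2 := (dp_spec y T q).1 s2 ⟨h3, hp.2.1, fun z hz =>
        ⟨hp.2.2 y hy z hz, (hs.2.2 z (by simp [hz])).2⟩⟩
      have hyy := hs.2.2 y (by simp [hy])
      have := h y hyy.1 hyy.2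
      rw [List.length_append]
      omega

theorem U_triv {p q m : ℕ} {w : List ℕ} (h : q < p) : U p q m w := by
  intro s hs
  cases s with
  | nil => simp
  | cons a s =>
    have := hs.2.2 a (by simp)
    omega

theorem U_min {p q m N : ℕ} {w : List ℕ} (hw : ∀ x ∈ w, x ≤ N) :
    U p q m w ↔ U p (min q N) m w := by
  constructor
  · intro h
    exact h.mono le_rfl (min_le_left _ _) le_rfl
  · intro h s hs
    refine h s ⟨hs.1, hs.2.1, fun x hx => ⟨(hs.2.2 x hx).1, le_min (hs.2.2 x hx).2 ?_⟩⟩
    exact hw x (hs.1.subset hx)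

/-- The common prefix `310 (40)^j`. -/
def Xw : ℕ → List ℕ
  | 0 => [3, 1, 0]
  | j + 1 => Xw j ++ [4, 0]

/-- The word `u`. -/
def uw (j : ℕ) : List ℕ := Xw j ++ [4, 1, 0, 4, 3, 0, 4, 3, 2, 1]

/-- The word `v`. -/
def vw (j : ℕ) : List ℕ := Xw j ++ [4, 2, 0, 4, 3, 1, 4, 3, 1, 0]

theorem Xw_length (j : ℕ) : (Xw j).length = 2 * j + 3 := by
  induction j with
  | zero => rfl
  | succ j ih => rw [Xw, List.length_append, ih]; simp; omega

theorem Xw_le (j : ℕ) : ∀ x ∈ Xw j, x ≤ 4 := by
  induction j with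
  | zero => decide
  | succ j ih =>
    intro x hx
    rw [Xw, List.mem_append] at hx
    rcases hx with h | h
    · exact ih x h
    · revert x; decide

theorem Xw_count (j : ℕ) : (Xw j).count 0 = j + 1 ∧ (Xw j).count 1 = 1 ∧ (Xw j).count 2 = 0 ∧
    (Xw j).count 3 = 1 ∧ (Xw j).count 4 = j := by
  induction j with
  | zero => decide
  | succ j ih =>
    obtain ⟨h0, h1, h2, h3, h4⟩ := ih
    simp [Xw, List.count_append, h0, h1, h2, h3, h4]

theorem dp_two (p : ℕ) (w : List ℕ) :
    dp p (w ++ [4, 0]) = step p (step p (dp p w) 4) 0 := by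
  simp [dp, List.foldl_append]

theorem X0 (j : ℕ) : dp 0 (Xw j) 0 = j + 1 ∧ dp 0 (Xw j) 1 = j + 1 ∧ dp 0 (Xw j) 2 = j + 1 ∧
    dp 0 (Xw j) 3 = j + 1 ∧ dp 0 (Xw j) 4 = j + 1 := by
  induction j with
  | zero => decide
  | succ j ih =>
    obtain ⟨h0, h1, h2, h3, h4⟩ := ih
    simp only [Xw, dp_two, step, h0, h1, h2, h3, h4]
    norm_num

theorem X1 (j : ℕ) : dp 1 (Xw j) 1 = 1 ∧ dp 1 (Xw j) 2 = 1 ∧
    dp 1 (Xw j) 3 = 1 ∧ dp 1 (Xw j) 4 = j + 1 := by
  induction j with
  | zero => decide
  | succ j ih =>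
    obtain ⟨h1, h2, h3, h4⟩ := ih
    simp only [Xw, dp_two, step, h1, h2, h3, h4]
    norm_num

theorem X2 (j : ℕ) : dp 2 (Xw j) 2 = 0 ∧
    dp 2 (Xw j) 3 = 1 ∧ dp 2 (Xw j) 4 = j + 1 := by
  induction j with
  | zero => decide
  | succ j ih =>
    obtain ⟨h2, h3, h4⟩ := ih
    simp only [Xw, dp_two, step, h2, h3, h4]
    norm_num

theorem X3 (j : ℕ) : dp 3 (Xw j) 3 = 1 ∧ dp 3 (Xw j) 4 = j + 1 := by
  induction j with
  | zero => decide
  | succ j ih =>
    obtain ⟨h3, h4⟩ := ih
    simp only [Xw, dp_two, step, h3, h4]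
    norm_num

theorem X4 (j : ℕ) : dp 4 (Xw j) 4 = j := by
  induction j with
  | zero => decide
  | succ j ih =>
    simp only [Xw, dp_two, step, ih]
    norm_num

end Pool.Agent.Q274.GM
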